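import Pool.Agent.Q27.LFA.Base
import Pool.Agent.Q30.FJ.Nov

/-!
# General linear groups over algebras with towers of finite free subalgebras
-/

set_option autoImplicit false

namespace Q27.LFA

open Matrix
open Pool.Agent.Y110.FJ (ClosedE Realized)
open Q30.FJ (ClosedOver)

variable {R A : Type} [CommRing R] [Ring A] [Algebra R A] {n : ℕ}

/-- invertible matrices with entries in a subalgebra -/
def EB (n : ℕ) (B : Subalgebra R A) : Subgroup (Matrix (Fin n) (Fin n) A)ˣ where
  carrier := {u | (∀ a b, (u : Matrix (Fin n) (Fin n) A) a b ∈ B) ∧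
    ∀ a b, ((u⁻¹ : (Matrix (Fin n) (Fin n) A)ˣ) : Matrix (Fin n) (Fin n) A) a b ∈ B}
  one_mem' := by
    have h : ∀ a b, (1 : Matrix (Fin n) (Fin n) A) a b ∈ B := by
      intro a b
      rw [Matrix.one_apply]
      split
      · exact one_mem B
      · exact zero_mem B
    refine ⟨fun a b => ?_, fun a b => ?_⟩
    · rw [Units.val_one]; exact h a b
    · rw [inv_one, Units.val_one]; exact h a b
  mul_mem' := fun {u v} hu hv => ⟨fun a b => by
    rw [Units.val_mul, Matrix.mul_apply]
    exact sum_mem fun c _ => mul_mem (hu.1 a c) (hv.1 c b), fun a b => by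
    rw [_root_.mul_inv_rev, Units.val_mul, Matrix.mul_apply]
    exact sum_mem fun c _ => mul_mem (hv.2 a c) (hu.2 c b)⟩
  inv_mem' := fun {u} hu => ⟨hu.2, by rw [inv_inv]; exact hu.1⟩

/-- the action on column vectors -/
def act (n : ℕ) (B : Subalgebra R A) : EB n B →* Module.End R (Fin n → B) where
  toFun u :=
    { toFun := fun w a => ⟨((u : (Matrix (Fin n) (Fin n) A)ˣ) : Matrix (Fin n) (Fin n) A).mulVec
          (fun b => (w b : A)) a, (show ∑ b, ((u : (Matrix (Fin n) (Fin n) A)ˣ) :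
            Matrix (Fin n) (Fin n) A) a b * (w b : A) ∈ B from
            sum_mem fun b _ => mul_mem (u.2.1 a b) (w b).2)⟩
      map_add' := fun v w => by
        funext a
        apply Subtype.ext
        show _ = Matrix.mulVec _ (fun b => (v b : A)) a + Matrix.mulVec _ (fun b => (w b : A)) a
        rw [← Pi.add_apply, ← Matrix.mulVec_add]
        rfl
      map_smul' := fun t w => by
        funext a
        apply Subtype.ext
        show Matrix.mulVec _ (t • fun b => (w b : A)) a = t • Matrix.mulVec _ (fun b => (w b : A)) a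
        rw [Matrix.mulVec_smul]
        rfl }
  map_one' := by
    apply LinearMap.ext
    intro w
    funext a
    apply Subtype.ext
    show Matrix.mulVec (1 : Matrix (Fin n) (Fin n) A) (fun b => (w b : A)) a = w a
    rw [Matrix.one_mulVec]
  map_mul' u v := by
    apply LinearMap.ext
    intro w
    funext a
    apply Subtype.ext
    exact (congrFun (Matrix.mulVec_mulVec (fun b => (w b : A))
      ((u : (Matrix (Fin n) (Fin n) A)ˣ) : Matrix (Fin n) (Fin n) A)
      ((v : (Matrix (Fin n) (Fin n) A)ˣ) : Matrix (Fin n) (Fin n) A)) a).symm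

theorem act_apply (B : Subalgebra R A) (u : EB n B) (w : Fin n → B) (a : Fin n) :
    ((act n B u w a : B) : A) =
      ∑ b, ((u : (Matrix (Fin n) (Fin n) A)ˣ) : Matrix (Fin n) (Fin n) A) a b * (w b : A) := rfl

theorem act_inj (B : Subalgebra R A) : Function.Injective (act n B) := by
  intro u v huv
  apply Subtype.ext
  apply Units.ext
  ext a b
  have h1 := congrArg (fun φ : Module.End R (Fin n → B) => ((φ (Pi.single b 1) a : B) : A)) huv
  have h2 : ∀ u : EB n B, ((act n B u (Pi.single b 1) a : B) : A) =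
      ((u : (Matrix (Fin n) (Fin n) A)ˣ) : Matrix (Fin n) (Fin n) A) a b := by
    intro u
    rw [act_apply, Finset.sum_eq_single b]
    · rw [Pi.single_eq_same]
      push_cast
      rw [mul_one]
    · intro c _ hc
      rw [Pi.single_eq_of_ne hc]
      push_cast
      rw [mul_zero]
    · intro hb
      exact absurd (Finset.mem_univ b) hb
  have h3 : ((act n B u (Pi.single b 1) a : B) : A) = ((act n B v (Pi.single b 1) a : B) : A) := h1
  rwa [h2, h2] at h3

/-- units of endomorphisms of free modules -/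
theorem gl_free {C : ∀ (G : Type) [Group G], Prop} (hC : ClosedE C) [Nontrivial R]
    (hR : ∀ m : ℕ, C (GL (Fin m) R)) (W : Type) [AddCommGroup W] [Module R W]
    [Module.Finite R W] [Module.Free R W] : C (Module.End R W)ˣ := by
  let b := Module.finBasis R W
  let e : (Module.End R W)ˣ ≃* GL (Fin (Module.finrank R W)) R :=
    Units.mapEquiv (LinearMap.toMatrixAlgEquiv b).toMulEquiv
  exact hC.base.of_injective _ _ e.toMonoidHom e.injective (hR _)

theorem fin_sub {T : Set (Subalgebra R A)} (hT : Tower T) {B : Subalgebra R A} (hB : B ∈ T) :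
    ∃ s : Set A, s.Finite ∧ ∀ B' : Subalgebra R A, s ⊆ (B' : Set A) → B ≤ B' := by
  have h1 := hT.fin B hB
  have h2 : (Subalgebra.toSubmodule B).FG := (Module.Finite.iff_fg (N := Subalgebra.toSubmodule B)).1 h1
  obtain ⟨s, hs⟩ := h2
  refine ⟨s, s.finite_toSet, ?_⟩
  intro B' hsB
  have h3 : Submodule.span R (s : Set A) ≤ Subalgebra.toSubmodule B' := Submodule.span_le.2 hsB
  rw [hs] at h3
  exact h3

/-- **linear groups over towers of finite free algebras** -/
theorem tower_main {C D : ∀ (G : Type) [Group G], Prop} (hC : ClosedE C) (hD : ClosedOver C D)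
    [Nontrivial R] (hR : ∀ m : ℕ, C (GL (Fin m) R)) (T : Set (Subalgebra R A)) (hT : Tower T)
    (n : ℕ) (G : Type) [Group G] (N : Subgroup G) [N.Normal] (hQ : D (G ⧸ N))
    (ρ : N →* (Matrix (Fin n) (Fin n) A)ˣ) (hρ : Function.Injective ρ)
    (h : ∀ g : G, ∃ (α : A ≃ₐ[R] A) (u : (Matrix (Fin n) (Fin n) A)ˣ),
      (∀ B ∈ T, B.map (α : A →ₐ[R] A) ∈ T) ∧
      ∀ x y : N, (y : G) = g * x * g⁻¹ → ∀ a b,
        ((ρ y * u : (Matrix (Fin n) (Fin n) A)ˣ) : Matrix (Fin n) (Fin n) A) a b =
        ((u : Matrix (Fin n) (Fin n) A) * ((ρ x : Matrix (Fin n) (Fin n) A).map α)) a b) : D G := by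
  refine Q30.FJ.crit_over hC hD G N hQ ?_
  intro g E hE hEN
  left
  obtain ⟨α, u, hα, hu⟩ := h g
  have hE' : E ∪ (fun x => g * x * g⁻¹) '' E ⊆ N := by
    rintro x (hx | ⟨x, hx, rfl⟩)
    · exact hEN hx
    · exact Subgroup.Normal.conj_mem inferInstance x (hEN hx) g
  have hEf : (E ∪ (fun x => g * x * g⁻¹) '' E).Finite := hE.union (hE.image _)
  -- entries
  let ent : (Matrix (Fin n) (Fin n) A)ˣ → Set A := fun v =>
    (Set.range fun p : Fin n × Fin n => (v : Matrix _ _ A) p.1 p.2) ∪
    (Set.range fun p : Fin n × Fin n => ((v⁻¹ : (Matrix (Fin n) (Fin n) A)ˣ) : Matrix _ _ A) p.1 p.2)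
  have hentf : ∀ v, (ent v).Finite := fun v => (Set.finite_range _).union (Set.finite_range _)
  have hent : ∀ (v : (Matrix (Fin n) (Fin n) A)ˣ) (B : Subalgebra R A), ent v ⊆ (B : Set A) →
      v ∈ EB n B := fun v B hB => ⟨fun a b => hB (Or.inl ⟨(a, b), rfl⟩),
    fun a b => hB (Or.inr ⟨(a, b), rfl⟩)⟩
  let S : Set A := ⋃ x ∈ {x : N | (x : G) ∈ E ∪ (fun x => g * x * g⁻¹) '' E}, ent (ρ x)
  have hS : S.Finite := by
    refine Set.Finite.biUnion ?_ fun x _ => hentf _
    exact hEf.preimage Subtype.val_injective.injOn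
  obtain ⟨B, hBT, hSB⟩ := hT.cover S hS
  obtain ⟨s1, hs1, hs1'⟩ := fin_sub hT hBT
  obtain ⟨s2, hs2, hs2'⟩ := fin_sub hT (hα B hBT)
  obtain ⟨B', hB'T, hB'⟩ := hT.cover (s1 ∪ s2 ∪ ent u) ((hs1.union hs2).union (hentf u))
  have hBB' : B ≤ B' := hs1' B' (fun x hx => hB' (Or.inl (Or.inl hx)))
  have hαB' : B.map (α : A →ₐ[R] A) ≤ B' := hs2' B' (fun x hx => hB' (Or.inl (Or.inr hx)))
  have huB' : u ∈ EB n B' := hent u B' (fun x hx => hB' (Or.inr hx))
  obtain ⟨θ, hθ⟩ := exists_theta B B' α hBB' hαB' (hT.fin B hBT) (hT.free B hBT)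
    (hT.ovr B hBT B' hB'T hBB') (hT.ovr _ (hα B hBT) B' hB'T hαB')
  have hBfin := hT.fin B' hB'T
  have hBfree := hT.free B' hB'T
  have hP : C (Module.End R (Fin n → B'))ˣ := gl_free hC hR _
  let F : EB n B' →* (Module.End R (Fin n → B'))ˣ := (act n B').toHomUnits
  have hF : Function.Injective F := by
    intro a b hab
    exact act_inj B' (congrArg Units.val hab)
  -- the restriction to the subgroup generated by `E` and its conjugate
  have hle : Subgroup.closure (E ∪ (fun x => g * x * g⁻¹) '' E) ≤ N := (Subgroup.closure_le _).2 hE'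
  have hmemB : ∀ x : N, (x : G) ∈ E ∪ (fun x => g * x * g⁻¹) '' E → ρ x ∈ EB n B := by
    intro x hx
    exact hent _ B (fun y hy => hSB (Set.mem_biUnion (show x ∈ {x : N | (x : G) ∈
      E ∪ (fun x => g * x * g⁻¹) '' E} from hx) hy))
  have hEBle : EB n B ≤ EB n B' := fun v hv => ⟨fun a b => hBB' (hv.1 a b),
    fun a b => hBB' (hv.2 a b)⟩
  have hcl : Subgroup.closure (E ∪ (fun x => g * x * g⁻¹) '' E) ≤
      ((EB n B').comap ρ).map N.subtype := by
    rw [Subgroup.closure_le]
    intro x hx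
    exact ⟨⟨x, hE' hx⟩, hEBle (hmemB ⟨x, hE' hx⟩ hx), rfl⟩
  have hres : ∀ x : Subgroup.closure (E ∪ (fun x => g * x * g⁻¹) '' E),
      ρ (Subgroup.inclusion hle x) ∈ EB n B' := by
    intro x
    obtain ⟨y, hy, hyx⟩ := hcl x.2
    have h1 : y = Subgroup.inclusion hle x := Subtype.ext hyx
    rw [← h1]
    exact hy
  let res : Subgroup.closure (E ∪ (fun x => g * x * g⁻¹) '' E) →* EB n B' :=
    MonoidHom.mk' (fun x => ⟨ρ (Subgroup.inclusion hle x), hres x⟩) (fun x y => by
      apply Subtype.ext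
      show ρ (Subgroup.inclusion hle (x * y)) = _
      rw [map_mul, map_mul]
      rfl)
  have hresi : Function.Injective res := by
    intro x y hxy
    have h1 : ρ (Subgroup.inclusion hle x) = ρ (Subgroup.inclusion hle y) :=
      congrArg Subtype.val hxy
    exact Subgroup.inclusion_injective hle (hρ h1)
  let Θ : (Fin n → B') ≃ₗ[R] (Fin n → B') := LinearEquiv.piCongrRight fun _ => θ
  let Θu : (Module.End R (Fin n → B'))ˣ := ⟨Θ.toLinearMap, Θ.symm.toLinearMap, by
    apply LinearMap.ext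
    intro w
    exact Θ.apply_symm_apply w, by
    apply LinearMap.ext
    intro w
    exact Θ.symm_apply_apply w⟩
  refine ⟨(Module.End R (Fin n → B'))ˣ, inferInstance, F.comp res, F ⟨u, huB'⟩ * Θu, hP,
    hF.comp hresi, ?_⟩
  intro x y hx hy
  rw [eq_mul_inv_iff_mul_eq]
  apply Units.ext
  apply LinearMap.ext
  intro w
  funext a
  apply Subtype.ext
  have hxN : ρ (Subgroup.inclusion hle x) ∈ EB n B := hmemB _ (Or.inl hx)
  have key := hu (Subgroup.inclusion hle x) (Subgroup.inclusion hle y) hy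
  -- the values of `Θ`
  have h1 : ∀ (w : Fin n → B') (c : Fin n), ((Θ w c : B') : A) = (θ (w c) : B') := fun w c => rfl
  have h2 : ∀ c : Fin n, ((Θ (act n B' (res x) w) c : B') : A) =
      ∑ b, α ((ρ (Subgroup.inclusion hle x) : Matrix (Fin n) (Fin n) A) c b) *
        ((θ (w b) : B') : A) := by
    intro c
    rw [h1]
    have h3 : (act n B' (res x) w c : B') = ∑ b, (⟨(ρ (Subgroup.inclusion hle x) :
        Matrix (Fin n) (Fin n) A) c b, (hres x).1 c b⟩ : B') * w b := by
      apply Subtype.ext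
      rw [act_apply]
      push_cast
      rfl
    rw [h3, map_sum]
    push_cast
    refine Finset.sum_congr rfl fun b _ => ?_
    exact hθ ⟨_, hxN.1 c b⟩ (w b) _ rfl
  show ((act n B' (res y) (act n B' ⟨u, huB'⟩ (Θ w)) a : B') : A) =
    ((act n B' ⟨u, huB'⟩ (Θ (act n B' (res x) w)) a : B') : A)
  have h4 : ((act n B' (res y) (act n B' ⟨u, huB'⟩ (Θ w)) a : B') : A) =
      (((ρ (Subgroup.inclusion hle y) : Matrix (Fin n) (Fin n) A) *
        (u : Matrix (Fin n) (Fin n) A)).mulVec (fun b => ((Θ w b : B') : A))) a := by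
    rw [← Matrix.mulVec_mulVec]
    rfl
  have h5 : ((act n B' ⟨u, huB'⟩ (Θ (act n B' (res x) w)) a : B') : A) =
      (((u : Matrix (Fin n) (Fin n) A) * ((ρ (Subgroup.inclusion hle x) :
        Matrix (Fin n) (Fin n) A).map α)).mulVec (fun b => ((Θ w b : B') : A))) a := by
    rw [← Matrix.mulVec_mulVec]
    have h6 : (((ρ (Subgroup.inclusion hle x) : Matrix (Fin n) (Fin n) A).map α).mulVec
        (fun b => ((Θ w b : B') : A))) = fun c => ((Θ (act n B' (res x) w) c : B') : A) := by
      funext c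
      rw [h2]
      rfl
    rw [h6]
    rfl
  rw [h4, h5]
  have h7 : (ρ (Subgroup.inclusion hle y) : Matrix (Fin n) (Fin n) A) *
      (u : Matrix (Fin n) (Fin n) A) = (u : Matrix (Fin n) (Fin n) A) *
      ((ρ (Subgroup.inclusion hle x) : Matrix (Fin n) (Fin n) A).map α) := by
    ext a b
    have h8 := key a b
    rw [Units.val_mul] at h8
    exact h8
  rw [h7]

end Q27.LFA
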