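import Mathlib

/-!
# Algebras which are unions of finite free subalgebras: covariance
-/

set_option autoImplicit false

namespace Q27.LFA

variable {R A : Type} [CommRing R] [Ring A] [Algebra R A]

/-- `B'` is free of finite rank as a left module over `B`: there are `b 0, ..., b (r - 1)` in `B'` so
that each `y` in `B'` is `∑ c i * b i` for unique `c i` in `B` -/
def FreeOver (B B' : Subalgebra R A) : Prop :=
  ∃ (r : ℕ) (b : Fin r → A), (∀ i, b i ∈ B') ∧
    ∀ y ∈ B', ∃! c : Fin r → B, ∑ i, (c i : A) * b i = y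

/-- A family of subalgebras of `A`: each finite subset of `A` is in one of them, they are finitely
generated free modules over `R`, and free of finite rank over each other. -/
structure Tower (T : Set (Subalgebra R A)) : Prop where
  cover : ∀ s : Set A, s.Finite → ∃ B ∈ T, s ⊆ (B : Set A)
  fin : ∀ B ∈ T, Module.Finite R B
  free : ∀ B ∈ T, Module.Free R B
  ovr : ∀ B ∈ T, ∀ B' ∈ T, B ≤ B' → FreeOver B B'

/-- the linear bijection given by a basis -/
theorem FreeOver.equiv {B B' : Subalgebra R A} (hle : B ≤ B') (h : FreeOver B B') :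
    ∃ (r : ℕ) (b : Fin r → A) (e : (Fin r → B) ≃ₗ[R] B'),
      ∀ c, ((e c : B') : A) = ∑ i, (c i : A) * b i := by
  obtain ⟨r, b, hb, hu⟩ := h
  let f : (Fin r → B) →ₗ[R] B' :=
    { toFun := fun c => ⟨∑ i, (c i : A) * b i,
        sum_mem fun i _ => mul_mem (hle (c i).2) (hb i)⟩
      map_add' := fun c d => by
        apply Subtype.ext
        show ∑ i, ((c i + d i : B) : A) * b i = ∑ i, (c i : A) * b i + ∑ i, (d i : A) * b i
        rw [← Finset.sum_add_distrib]
        refine Finset.sum_congr rfl fun i _ => ?_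
        push_cast
        rw [add_mul]
      map_smul' := fun t c => by
        apply Subtype.ext
        show ∑ i, ((t • c i : B) : A) * b i = t • ∑ i, (c i : A) * b i
        rw [Finset.smul_sum]
        refine Finset.sum_congr rfl fun i _ => ?_
        push_cast
        rw [smul_mul_assoc] }
  have hf : Function.Bijective f := by
    constructor
    · intro c d hcd
      have h1 : ∑ i, (c i : A) * b i = ∑ i, (d i : A) * b i := congrArg Subtype.val hcd
      obtain ⟨c', -, h2⟩ := hu (∑ i, (d i : A) * b i) (f d).2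
      rw [h2 c h1, h2 d rfl]
    · rintro ⟨y, hy⟩
      obtain ⟨c, hc, -⟩ := hu y hy
      exact ⟨c, Subtype.ext hc⟩
  exact ⟨r, b, LinearEquiv.ofBijective f hf, fun c => rfl⟩

/-- **covariance** -/
theorem exists_theta [Nontrivial R] (B B' : Subalgebra R A) (α : A ≃ₐ[R] A) (h1 : B ≤ B')
    (h2 : B.map (α : A →ₐ[R] A) ≤ B') (hfin : Module.Finite R B) (hfree : Module.Free R B)
    (hB : FreeOver B B') (hB' : FreeOver (B.map (α : A →ₐ[R] A)) B') :
    ∃ θ : B' ≃ₗ[R] B', ∀ (x : B) (y z : B'), (z : A) = x * y →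
      ((θ z : B') : A) = α x * (θ y : B') := by
  obtain ⟨r, b, e, he⟩ := hB.equiv h1
  obtain ⟨r', b', e', he'⟩ := hB'.equiv h2
  let β : B ≃ₐ[R] B.map (α : A →ₐ[R] A) := α.subalgebraMap B
  have hβ : ∀ x : B, ((β x : B.map (α : A →ₐ[R] A)) : A) = α x := fun x => rfl
  rcases subsingleton_or_nontrivial A with hA | hA
  · exact ⟨LinearEquiv.refl R B', fun x y z _ => Subsingleton.elim _ _⟩
  have hfin' : Module.Finite R (B.map (α : A →ₐ[R] A)) := Module.Finite.equiv β.toLinearEquiv
  have hfree' : Module.Free R (B.map (α : A →ₐ[R] A)) := Module.Free.of_equiv β.toLinearEquiv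
  have hr : r = r' := by
    have e1 := e.finrank_eq
    have e2 := e'.finrank_eq
    have e3 := β.toLinearEquiv.finrank_eq
    rw [Module.finrank_pi_fintype] at e1 e2
    rw [Finset.sum_const, Finset.card_univ, Fintype.card_fin, smul_eq_mul] at e1 e2
    have hpos : 0 < Module.finrank R B := by
      have hBn : Nontrivial B := ⟨0, 1, fun h => zero_ne_one (congrArg Subtype.val h : (0 : A) = 1)⟩
      exact (Module.finrank_pos_iff_of_free R B).2 hBn
    rw [← e3] at e2
    exact Nat.eq_of_mul_eq_mul_right hpos (e1.trans e2.symm)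
  subst hr
  let m : (Fin r → B) ≃ₗ[R] (Fin r → B.map (α : A →ₐ[R] A)) :=
    LinearEquiv.piCongrRight fun _ => β.toLinearEquiv
  refine ⟨e.symm ≪≫ₗ m ≪≫ₗ e', ?_⟩
  intro x y z hz
  obtain ⟨c, rfl⟩ := e.surjective y
  have h3 : z = e (fun i => x * c i) := by
    apply Subtype.ext
    rw [hz, he, he, Finset.mul_sum]
    refine Finset.sum_congr rfl fun i _ => ?_
    push_cast
    rw [mul_assoc]
  have h4 : ∀ c : Fin r → B, (((e.symm ≪≫ₗ m ≪≫ₗ e') (e c) : B') : A) =
      ∑ i, α (c i : A) * b' i := by
    intro c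
    rw [LinearEquiv.trans_apply, LinearEquiv.trans_apply, e.symm_apply_apply, he']
    rfl
  rw [h3, h4, h4, Finset.mul_sum]
  refine Finset.sum_congr rfl fun i _ => ?_
  push_cast
  rw [map_mul, mul_assoc]

end Q27.LFA
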